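import Mathlib

namespace Pool.Agent.QS

open MeasureTheory intervalIntegral Real

/-- the convolution of `g` with the exponential `e^{-b .}` -/
noncomputable def cx (g : ℝ → ℝ) (b l : ℝ) : ℝ := ∫ q in (0:ℝ)..l, g q * exp (-((l - q) * b))

lemma cx_eq (g : ℝ → ℝ) (b l : ℝ) :
    cx g b l = exp (-(l * b)) * ∫ q in (0:ℝ)..l, g q * exp (q * b) := by
  unfold cx
  rw [← intervalIntegral.integral_const_mul]
  congr 1; ext q
  have : exp (-((l - q) * b)) = exp (-(l * b)) * exp (q * b) := by
    rw [← exp_add]; congr 1; ring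
  rw [this]; ring

lemma cx_zero (g : ℝ → ℝ) (b : ℝ) : cx g b 0 = 0 := by simp [cx]

lemma hasDerivAt_expneg (b l : ℝ) :
    HasDerivAt (fun l => exp (-(l * b))) (-b * exp (-(l * b))) l := by
  have h0 : HasDerivAt (fun l : ℝ => -(l * b)) (-(1 * b)) l :=
    ((hasDerivAt_id l).mul_const b).fun_neg
  have h1 := h0.exp
  convert h1 using 1
  ring

lemma hasDerivAt_cx {g : ℝ → ℝ} (hg : Continuous g) (b l : ℝ) :
    HasDerivAt (cx g b) (g l - b * cx g b l) l := by
  have h1 := hasDerivAt_expneg b l
  have hc : Continuous fun q => g q * exp (q * b) := by fun_prop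
  have h2 : HasDerivAt (fun l => ∫ q in (0:ℝ)..l, g q * exp (q * b)) (g l * exp (l * b)) l :=
    intervalIntegral.integral_hasDerivAt_right (hc.intervalIntegrable _ _)
      (hc.stronglyMeasurableAtFilter _ _) hc.continuousAt
  have h3 := h1.fun_mul h2
  have e : cx g b = fun l => exp (-(l * b)) * ∫ q in (0:ℝ)..l, g q * exp (q * b) := by
    ext l; exact cx_eq g b l
  have e' := cx_eq g b l
  rw [← e] at h3
  refine h3.congr_deriv ?_
  rw [e']
  have : exp (-(l * b)) * exp (l * b) = 1 := by rw [← exp_add]; simp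
  linear_combination (g l) * this

lemma continuous_cx {g : ℝ → ℝ} (hg : Continuous g) (b : ℝ) : Continuous (cx g b) :=
  continuous_iff_continuousAt.2 fun l => (hasDerivAt_cx hg b l).continuousAt

/-- `A(u) = 2 e^u - 1 - u`. -/
lemma A_pos (u : ℝ) : 0 < 2 * exp u - 1 - u := by
  have h1 : u - log (1/2) + 1 ≤ exp (u - log (1/2)) := add_one_le_exp (u - log (1/2))
  have h2 : exp (u - log (1/2)) = 2 * exp u := by
    rw [exp_sub, exp_log (by norm_num)]; ring
  have h3 : log (1/2) = - log 2 := by rw [one_div, log_inv]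
  have h4 : (0:ℝ) < log 2 := log_pos (by norm_num)
  rw [h2, h3] at h1
  linarith

lemma AB_ge (u : ℝ) : 1 ≤ (2 * exp u - 1 - u) * (2 * exp (-u) - 1 + u) := by
  have hmul : exp u * exp (-u) = 1 := by rw [← exp_add]; simp
  -- g(u) = 4 - u^2 - 4 cosh u + 4 u sinh u ≥ 0
  have key : ∀ u : ℝ, 0 ≤ u → 0 ≤ 4 - u^2 - 4 * cosh u + 4 * u * sinh u := by
    intro u hu
    have hmono : MonotoneOn (fun u : ℝ => 4 - u^2 - 4 * cosh u + 4 * u * sinh u) (Set.Ici 0) := by
      apply monotoneOn_of_deriv_nonneg (convex_Ici 0)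
      · fun_prop
      · fun_prop
      · intro x hx
        rw [interior_Ici] at hx
        have hd : HasDerivAt (fun u : ℝ => 4 - u^2 - 4 * cosh u + 4 * u * sinh u)
            (0 - 2 * x - 4 * sinh x + (4 * 1 * sinh x + 4 * x * cosh x)) x := by
          have := (((hasDerivAt_const x (4:ℝ)).fun_sub (hasDerivAt_pow 2 x)).fun_sub
            ((hasDerivAt_cosh x).const_mul 4)).fun_add
            (((hasDerivAt_id x).const_mul 4).fun_mul (hasDerivAt_sinh x))
          refine this.congr_deriv ?_
          simp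
        rw [hd.deriv]
        have hx' : 0 < x := hx
        have := one_le_cosh x
        nlinarith
    have := hmono (Set.mem_Ici.2 le_rfl) (Set.mem_Ici.2 hu) hu
    simpa using this
  have key2 : 0 ≤ 4 - u^2 - 4 * cosh u + 4 * u * sinh u := by
    rcases le_total 0 u with h | h
    · exact key u h
    · have := key (-u) (by linarith)
      rw [cosh_neg, sinh_neg] at this
      nlinarith
  rw [cosh_eq, sinh_eq] at key2
  nlinarith

lemma quad_nonneg (u x x' : ℝ) :
    0 ≤ (2 * exp u - 1 - u) * x^2 + (2 * exp (-u) - 1 + u) * x'^2 - 2 * x * x' := by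
  have hA := A_pos u
  have hAB := AB_ge u
  set A := 2 * exp u - 1 - u
  set B := 2 * exp (-u) - 1 + u
  have h : 0 ≤ A * (A * x^2 + B * x'^2 - 2 * x * x') := by
    have : A * (A * x^2 + B * x'^2 - 2 * x * x') = (A * x - x')^2 + (A * B - 1) * x'^2 := by ring
    rw [this]
    have := sq_nonneg (A * x - x')
    have := mul_nonneg (sub_nonneg.2 hAB) (sq_nonneg x')
    linarith
  exact nonneg_of_mul_nonneg_right h hA

/-- the sector integrand -/
noncomputable def TT (g : ℝ → ℝ) (b b' h v : ℝ) : ℝ :=
  (exp (-(v * b)) - exp (-(v * b'))) *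
    (exp (-(v * b)) * (cx g b (h - v))^2 - exp (-(v * b')) * (cx g b' (h - v))^2)

theorem integral_TT_nonneg {g : ℝ → ℝ} (hg : Continuous g) (b b' : ℝ) {h : ℝ} (hh : 0 ≤ h) :
    0 ≤ ∫ v in (0:ℝ)..h, TT g b b' h v := by
  have hcb := continuous_cx hg b
  have hcb' := continuous_cx hg b'
  set P : ℝ → ℝ := fun v => v * exp (-(v * (b + b'))) * (cx g b (h - v) - cx g b' (h - v))^2 with hP
  set Q : ℝ → ℝ := fun v => exp (-(v * (b + b'))) *
    ((2 * exp (v * (b' - b)) - 1 - v * (b' - b)) * (cx g b (h - v))^2 +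
     (2 * exp (-(v * (b' - b))) - 1 + v * (b' - b)) * (cx g b' (h - v))^2
     - 2 * cx g b (h - v) * cx g b' (h - v)) with hQ
  have hTc : Continuous (TT g b b' h) := by unfold TT; fun_prop
  have hQc : Continuous Q := by rw [hQ]; fun_prop
  have hder : ∀ v, HasDerivAt P (Q v - 2 * TT g b b' h v) v := by
    intro v
    have hx : HasDerivAt (fun v => cx g b (h - v)) (-(g (h - v) - b * cx g b (h - v))) v := by
      have h0 := (hasDerivAt_cx hg b (h - v)).comp v ((hasDerivAt_id v).const_sub h)
      simpa [Function.comp_def] using h0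
    have hx' : HasDerivAt (fun v => cx g b' (h - v)) (-(g (h - v) - b' * cx g b' (h - v))) v := by
      have h0 := (hasDerivAt_cx hg b' (h - v)).comp v ((hasDerivAt_id v).const_sub h)
      simpa [Function.comp_def] using h0
    have he := hasDerivAt_expneg (b + b') v
    have := ((hasDerivAt_id v).fun_mul he).fun_mul ((hx.fun_sub hx').fun_pow 2)
    have h2 : HasDerivAt P _ v := this
    refine h2.congr_deriv ?_
    simp only [hQ, TT, id]
    have e1 : exp (-(v * b)) * exp (-(v * b)) = exp (-(v * (b + b'))) * exp (v * (b' - b)) := by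
      rw [← exp_add, ← exp_add]; congr 1; ring
    have e2 : exp (-(v * b')) * exp (-(v * b')) =
        exp (-(v * (b + b'))) * exp (-(v * (b' - b))) := by
      rw [← exp_add, ← exp_add]; congr 1; ring
    have e3 : exp (-(v * b)) * exp (-(v * b')) = exp (-(v * (b + b'))) := by
      rw [← exp_add]; congr 1; ring
    set X := cx g b (h - v)
    set X' := cx g b' (h - v)
    set E := exp (-(v * (b + b')))
    set F := exp (v * (b' - b))
    set F' := exp (-(v * (b' - b)))
    set p := exp (-(v * b))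
    set p' := exp (-(v * b'))
    have e0 : (p - p') * (p * X^2 - p' * X'^2) =
        (p * p) * X^2 + (p' * p') * X'^2 - (p * p') * (X^2 + X'^2) := by ring
    rw [e0, e1, e2, e3]
    push_cast
    ring
  have hTc2 : Continuous fun v => 2 * TT g b b' h v := continuous_const.mul hTc
  have hint : ∫ v in (0:ℝ)..h, (Q v - 2 * TT g b b' h v) = P h - P 0 :=
    intervalIntegral.integral_eq_sub_of_hasDerivAt (fun v _ => hder v)
      ((hQc.sub hTc2).intervalIntegrable _ _)
  have hPh : P h = 0 := by simp [hP, cx_zero]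
  have hP0 : P 0 = 0 := by simp [hP]
  rw [hPh, hP0, intervalIntegral.integral_sub (hQc.intervalIntegrable _ _)
    (hTc2.intervalIntegrable _ _),
    intervalIntegral.integral_const_mul] at hint
  have hQn : 0 ≤ ∫ v in (0:ℝ)..h, Q v := by
    apply intervalIntegral.integral_nonneg hh
    intro v _
    apply mul_nonneg (exp_pos _).le
    exact quad_nonneg _ _ _
  linarith

end Pool.Agent.QS
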