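import Mathlib
import Pool.Agent.Lib_helper12.QS.Core

namespace Pool.Agent.QS

open MeasureTheory intervalIntegral Matrix
open scoped ComplexConjugate

/-- the folding lemma for the simplex (to be supplied) -/
def FoldStmt : Prop :=
  ∀ (J : ℝ → ℝ → ℝ → ℝ → ℝ) (_ : Continuous fun p : ℝ × ℝ × ℝ × ℝ => J p.1 p.2.1 p.2.2.1 p.2.2.2)
    (_ : ∀ q1 q2 q3 q4, J q2 q1 q3 q4 = J q1 q2 q3 q4)
    (_ : ∀ q1 q2 q3 q4, J q1 q2 q4 q3 = J q1 q2 q3 q4) (h : ℝ) (_ : 0 ≤ h),
    (∫ s in (0:ℝ)..(2*h), ∫ q1 in (0:ℝ)..s, ∫ q2 in (0:ℝ)..(2*h - s),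
        J q1 q2 (s - q1) (2*h - s - q2)) =
      2 * (∫ v in (0:ℝ)..h, ∫ q1 in (0:ℝ)..(h - v), ∫ q2 in (0:ℝ)..(h - v),
        J q1 q2 (2*h - q1 - q2 - v) v) +
      2 * (∫ u in (0:ℝ)..h, ∫ q3 in (0:ℝ)..(h - u), ∫ q4 in (0:ℝ)..(h - u),
        J (2*h - q3 - q4 - u) u q3 q4)

lemma ii_sub {f g : ℝ → ℝ} (hf : Continuous f) (hg : Continuous g) (a b : ℝ) :
    ∫ x in a..b, (f x - g x) = (∫ x in a..b, f x) - ∫ x in a..b, g x :=
  intervalIntegral.integral_sub (hf.intervalIntegrable _ _) (hg.intervalIntegrable _ _)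

lemma ii_sum {ι : Type*} [Fintype ι] {f : ι → ℝ → ℝ} (hf : ∀ i, Continuous (f i)) (a b : ℝ) :
    ∫ x in a..b, (∑ i, f i x) = ∑ i, ∫ x in a..b, f i x :=
  intervalIntegral.integral_finsetSum fun i _ => (hf i).intervalIntegrable _ _

open Real in
lemma inner_eq {r : ℝ → ℝ} (hr : Continuous r) (b b' h v : ℝ) :
    (∫ q1 in (0:ℝ)..(h - v), ∫ q2 in (0:ℝ)..(h - v), r q1 * r q2 *
      ((exp (-((2*h - q1 - q2 - v) * b)) - exp (-((2*h - q1 - q2 - v) * b'))) *
        (exp (-(v * b)) - exp (-(v * b'))))) = TT r b b' h v := by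
  set E := exp (-(v * b)) with hE
  set E' := exp (-(v * b')) with hE'
  have e : ∀ q1 q2 : ℝ, r q1 * r q2 *
      ((exp (-((2*h - q1 - q2 - v) * b)) - exp (-((2*h - q1 - q2 - v) * b'))) * (E - E')) =
      (((E - E') * E) * (r q1 * exp (-((h - v - q1) * b)))) * (r q2 * exp (-((h - v - q2) * b))) -
      (((E - E') * E') * (r q1 * exp (-((h - v - q1) * b')))) *
        (r q2 * exp (-((h - v - q2) * b'))) := by
    intro q1 q2
    have e1 : exp (-((2*h - q1 - q2 - v) * b)) =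
        E * exp (-((h - v - q1) * b)) * exp (-((h - v - q2) * b)) := by
      rw [hE, ← exp_add, ← exp_add]; congr 1; ring
    have e2 : exp (-((2*h - q1 - q2 - v) * b')) =
        E' * exp (-((h - v - q1) * b')) * exp (-((h - v - q2) * b')) := by
      rw [hE', ← exp_add, ← exp_add]; congr 1; ring
    rw [e1, e2]; ring
  simp_rw [e]
  have i1 : ∀ q1 : ℝ, (∫ q2 in (0:ℝ)..(h - v),
      ((((E - E') * E) * (r q1 * exp (-((h - v - q1) * b)))) * (r q2 * exp (-((h - v - q2) * b))) -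
      (((E - E') * E') * (r q1 * exp (-((h - v - q1) * b')))) *
        (r q2 * exp (-((h - v - q2) * b'))))) =
      (((E - E') * E) * cx r b (h - v)) * (r q1 * exp (-((h - v - q1) * b))) -
      (((E - E') * E') * cx r b' (h - v)) * (r q1 * exp (-((h - v - q1) * b'))) := by
    intro q1
    rw [ii_sub (by fun_prop) (by fun_prop),
      intervalIntegral.integral_const_mul, intervalIntegral.integral_const_mul]
    unfold cx
    ring
  simp_rw [i1]
  rw [ii_sub (by fun_prop) (by fun_prop),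
      intervalIntegral.integral_const_mul, intervalIntegral.integral_const_mul]
  unfold TT
  change (E - E') * E * cx r b (h - v) * cx r b (h - v) -
    (E - E') * E' * cx r b' (h - v) * cx r b' (h - v) = _
  ring

/-- the sum kernel of one region -/
noncomputable def JJ {ι : Type*} [Fintype ι] (r : ι → ℝ → ℝ) (b b' : ι → ℝ)
    (q1 q2 q3 q4 : ℝ) : ℝ :=
  ∑ i, r i q1 * r i q2 *
    ((Real.exp (-(q3 * b i)) - Real.exp (-(q3 * b' i))) *
      (Real.exp (-(q4 * b i)) - Real.exp (-(q4 * b' i))))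

lemma region_nonneg {ι : Type*} [Fintype ι] {r : ι → ℝ → ℝ} (hr : ∀ i, Continuous (r i))
    (b b' : ι → ℝ) {h : ℝ} (hh : 0 ≤ h) :
    0 ≤ ∫ v in (0:ℝ)..h, ∫ q1 in (0:ℝ)..(h - v), ∫ q2 in (0:ℝ)..(h - v),
      JJ r b b' q1 q2 (2*h - q1 - q2 - v) v := by
  have key : ∀ v : ℝ, (∫ q1 in (0:ℝ)..(h - v), ∫ q2 in (0:ℝ)..(h - v),
      JJ r b b' q1 q2 (2*h - q1 - q2 - v) v) = ∑ i, TT (r i) (b i) (b' i) h v := by
    intro v
    unfold JJ
    have hc : ∀ i, Continuous fun p : ℝ × ℝ =>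
        r i p.1 * r i p.2 * ((Real.exp (-((2*h - p.1 - p.2 - v) * b i)) -
          Real.exp (-((2*h - p.1 - p.2 - v) * b' i))) *
          (Real.exp (-(v * b i)) - Real.exp (-(v * b' i)))) := by
      intro i
      have := hr i
      fun_prop
    have in1 : ∀ q1 : ℝ, (∫ q2 in (0:ℝ)..(h - v), ∑ i, r i q1 * r i q2 *
          ((Real.exp (-((2*h - q1 - q2 - v) * b i)) -
          Real.exp (-((2*h - q1 - q2 - v) * b' i))) *
          (Real.exp (-(v * b i)) - Real.exp (-(v * b' i))))) =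
        ∑ i, (∫ q2 in (0:ℝ)..(h - v), r i q1 * r i q2 *
          ((Real.exp (-((2*h - q1 - q2 - v) * b i)) -
          Real.exp (-((2*h - q1 - q2 - v) * b' i))) *
          (Real.exp (-(v * b i)) - Real.exp (-(v * b' i))))) := by
      intro q1
      exact ii_sum (fun i => (hc i).comp (continuous_const.prodMk continuous_id)) _ _
    simp_rw [in1]
    rw [ii_sum (fun i =>
      intervalIntegral.continuous_parametric_intervalIntegral_of_continuous' (hc i) _ _)]
    exact Finset.sum_congr rfl fun i _ => inner_eq (hr i) _ _ _ _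
  simp_rw [key]
  have cT : ∀ i, Continuous (TT (r i) (b i) (b' i) h) := by
    intro i
    have := continuous_cx (hr i) (b i)
    have := continuous_cx (hr i) (b' i)
    unfold TT; fun_prop
  rw [ii_sum cT]
  exact Finset.sum_nonneg fun i _ => integral_TT_nonneg (hr i) _ _ hh


/-- `∫_0^s e^{-a u} e^{-b (s-u)} du` -/
noncomputable def E2 (a b s : ℝ) : ℝ :=
  ∫ u in (0:ℝ)..s, Real.exp (-(a * u)) * Real.exp (-(b * (s - u)))

/-- the density of the fourfold product of resolvents -/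
noncomputable def E4 (a b c d t : ℝ) : ℝ := ∫ s in (0:ℝ)..t, E2 a b s * E2 c d (t - s)

variable {n : Type*} [Fintype n] [DecidableEq n]

/-- rank one spectral projection of the unitary `V` -/
noncomputable def pr (V : Matrix n n ℂ) (k : n) : Matrix n n ℂ :=
  vecMulVec (fun i => V i k) (fun j => conj (V j k))

/-- the commutator -/
noncomputable def com (X Y : Matrix n n ℂ) : Matrix n n ℂ := X * Y - Y * X

/-- the semigroup `e^{-u A}`, `A = V diag(a) V*` -/
noncomputable def sgm (V : Matrix n n ℂ) (a : n → ℝ) (u : ℝ) : Matrix n n ℂ :=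
  V * diagonal (fun k => ((Real.exp (-(u * a k)) : ℝ) : ℂ)) * Vᴴ

lemma sgm_eq_sum (V : Matrix n n ℂ) (a : n → ℝ) (u : ℝ) :
    sgm V a u = ∑ k, ((Real.exp (-(u * a k)) : ℝ) : ℂ) • pr V k := by
  ext i j
  rw [sgm, Matrix.mul_apply]
  simp only [Matrix.mul_diagonal, conjTranspose_apply, Matrix.sum_apply,
    Matrix.smul_apply, pr, vecMulVec_apply, smul_eq_mul]
  refine Finset.sum_congr rfl fun k _ => ?_
  simp only [RCLike.star_def]
  ring

lemma sgm_isHermitian (V : Matrix n n ℂ) (a : n → ℝ) (u : ℝ) : (sgm V a u).IsHermitian := by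
  unfold sgm
  apply Matrix.isHermitian_mul_mul_conjTranspose
  exact Matrix.isHermitian_diagonal_of_self_adjoint _ (by
    ext k; simp only [Pi.star_apply, RCLike.star_def, Complex.conj_ofReal])

lemma trace_com_diag {G1 G2 : Matrix n n ℂ} (h2 : G2.IsHermitian) (d3 d4 : n → ℝ) :
    -(trace (com G1 (diagonal fun k => (d3 k : ℂ)) * com G2 (diagonal fun k => (d4 k : ℂ)))).re =
      ∑ l, ∑ l', ((G1 l l').re * (G2 l l').re + (G1 l l').im * (G2 l l').im) *
        ((d3 l - d3 l') * (d4 l - d4 l')) := by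
  have hc : ∀ (G : Matrix n n ℂ) (d : n → ℝ) (l l' : n),
      com G (diagonal fun k => (d k : ℂ)) l l' = G l l' * ((d l' : ℂ) - (d l : ℂ)) := by
    intro G d l l'
    simp only [com, Matrix.sub_apply, Matrix.mul_diagonal, Matrix.diagonal_mul]
    ring
  simp only [trace, diag_apply, Matrix.mul_apply, hc]
  rw [Complex.re_sum, ← Finset.sum_neg_distrib]
  refine Finset.sum_congr rfl fun l _ => ?_
  rw [Complex.re_sum, ← Finset.sum_neg_distrib]
  refine Finset.sum_congr rfl fun l' _ => ?_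
  have hG : G2 l' l = conj (G2 l l') := by
    have := h2.apply l' l
    rw [← this]; rfl
  rw [hG]
  simp only [Complex.mul_re, Complex.mul_im, Complex.sub_re, Complex.sub_im, Complex.ofReal_re,
    Complex.ofReal_im, Complex.conj_re, Complex.conj_im]
  ring

/-- the integrand `-Re Tr [a(q1), b(q3)][a(q2), b(q4)]` -/
noncomputable def JM (V : Matrix n n ℂ) (a : n → ℝ) (W : Matrix n n ℂ) (b : n → ℝ)
    (q1 q2 q3 q4 : ℝ) : ℝ :=
  -(trace (com (sgm V a q1) (sgm W b q3) * com (sgm V a q2) (sgm W b q4))).re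

lemma JM_swap (V : Matrix n n ℂ) (a : n → ℝ) (W : Matrix n n ℂ) (b : n → ℝ)
    (q1 q2 q3 q4 : ℝ) : JM V a W b q1 q2 q3 q4 = JM W b V a q3 q4 q1 q2 := by
  unfold JM com
  congr 3
  noncomm_ring

/-- coefficient functions in the basis `W` -/
noncomputable def rr (V : Matrix n n ℂ) (a : n → ℝ) (W : Matrix n n ℂ) :
    (n × n) × Bool → ℝ → ℝ := fun i q =>
  if i.2 then ((Wᴴ * sgm V a q * W) i.1.1 i.1.2).re else ((Wᴴ * sgm V a q * W) i.1.1 i.1.2).im

lemma continuous_rr (V : Matrix n n ℂ) (a : n → ℝ) (W : Matrix n n ℂ) (i : (n × n) × Bool) :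
    Continuous (rr V a W i) := by
  have hs : Continuous fun q => sgm V a q := by
    unfold sgm
    apply Continuous.matrix_mul _ continuous_const
    apply Continuous.matrix_mul continuous_const
    apply Continuous.matrix_diagonal
    fun_prop
  have h2 : Continuous fun q => (Wᴴ * sgm V a q * W) i.1.1 i.1.2 := by
    apply Continuous.matrix_elem
    exact (continuous_const.matrix_mul hs).matrix_mul continuous_const
  unfold rr
  split_ifs
  · exact Complex.continuous_re.comp h2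
  · exact Complex.continuous_im.comp h2

lemma JM_eq {W : Matrix n n ℂ} (hW : W ∈ unitaryGroup n ℂ) (V : Matrix n n ℂ) (a b : n → ℝ)
    (q1 q2 q3 q4 : ℝ) :
    JM V a W b q1 q2 q3 q4 = JJ (rr V a W) (fun i => b i.1.1) (fun i => b i.1.2) q1 q2 q3 q4 := by
  have hWW : Wᴴ * W = 1 := (mem_unitaryGroup_iff').1 hW
  have hWW' : W * Wᴴ = 1 := (mem_unitaryGroup_iff).1 hW
  have hcom : ∀ (A : Matrix n n ℂ) (D : Matrix n n ℂ),
      com A (W * D * Wᴴ) = W * com (Wᴴ * A * W) D * Wᴴ := by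
    intro A D
    unfold com
    rw [Matrix.mul_sub, Matrix.sub_mul]
    congr 1
    · calc A * (W * D * Wᴴ) = (W * Wᴴ) * A * (W * D * Wᴴ) := by rw [hWW', Matrix.one_mul]
        _ = W * (Wᴴ * A * W * D) * Wᴴ := by simp only [Matrix.mul_assoc]
    · calc (W * D * Wᴴ) * A = (W * D * Wᴴ) * A * (W * Wᴴ) := by rw [hWW', Matrix.mul_one]
        _ = W * (D * (Wᴴ * A * W)) * Wᴴ := by simp only [Matrix.mul_assoc]
  have htr : ∀ X Y : Matrix n n ℂ, trace (W * X * Wᴴ * (W * Y * Wᴴ)) = trace (X * Y) := by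
    intro X Y
    have : W * X * Wᴴ * (W * Y * Wᴴ) = W * (X * (Wᴴ * W) * Y) * Wᴴ := by
      simp only [Matrix.mul_assoc]
    rw [this, hWW, Matrix.mul_one, Matrix.trace_mul_comm, ← Matrix.mul_assoc, hWW, Matrix.one_mul]
  have hherm : ∀ q, (Wᴴ * sgm V a q * W).IsHermitian := by
    intro q
    have := Matrix.isHermitian_conjTranspose_mul_mul W (sgm_isHermitian V a q)
    exact this
  unfold JM
  have hB : ∀ q, sgm W b q = W * diagonal (fun k => ((Real.exp (-(q * b k)) : ℝ) : ℂ)) * Wᴴ :=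
    fun q => rfl
  rw [hB q3, hB q4, hcom, hcom, htr, trace_com_diag (hherm q2)]
  unfold JJ
  rw [Fintype.sum_prod_type, Fintype.sum_prod_type]
  refine Finset.sum_congr rfl fun l _ => Finset.sum_congr rfl fun l' _ => ?_
  simp only [Fintype.sum_bool, rr]
  simp only [if_true, Bool.false_eq_true, if_false]
  ring

lemma JJ_symm12 {ι : Type*} [Fintype ι] (r : ι → ℝ → ℝ) (b b' : ι → ℝ) (q1 q2 q3 q4 : ℝ) :
    JJ r b b' q2 q1 q3 q4 = JJ r b b' q1 q2 q3 q4 := by
  unfold JJ; refine Finset.sum_congr rfl fun i _ => ?_; ring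

lemma JJ_symm34 {ι : Type*} [Fintype ι] (r : ι → ℝ → ℝ) (b b' : ι → ℝ) (q1 q2 q3 q4 : ℝ) :
    JJ r b b' q1 q2 q4 q3 = JJ r b b' q1 q2 q3 q4 := by
  unfold JJ; refine Finset.sum_congr rfl fun i _ => ?_; ring

lemma JJ_cont {ι : Type*} [Fintype ι] {r : ι → ℝ → ℝ} (hr : ∀ i, Continuous (r i))
    (b b' : ι → ℝ) :
    Continuous fun p : ℝ × ℝ × ℝ × ℝ => JJ r b b' p.1 p.2.1 p.2.2.1 p.2.2.2 := by
  unfold JJ
  refine continuous_finsetSum _ fun i _ => ?_
  have := hr i
  fun_prop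

/-- positivity of the threefold integral -/
theorem s1_fold (hfold : FoldStmt) {V W : Matrix n n ℂ} (hV : V ∈ unitaryGroup n ℂ)
    (hW : W ∈ unitaryGroup n ℂ) (a b : n → ℝ) {h : ℝ} (hh : 0 ≤ h) :
    0 ≤ ∫ s in (0:ℝ)..(2*h), ∫ q1 in (0:ℝ)..s, ∫ q2 in (0:ℝ)..(2*h - s),
        JM V a W b q1 q2 (s - q1) (2*h - s - q2) := by
  have hJ : JM V a W b = JJ (rr V a W) (fun i => b i.1.1) (fun i => b i.1.2) := by
    funext q1 q2 q3 q4; exact JM_eq hW V a b q1 q2 q3 q4
  have key := hfold (JM V a W b) (by rw [hJ]; exact JJ_cont (continuous_rr V a W) _ _)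
    (by rw [hJ]; exact JJ_symm12 _ _ _) (by rw [hJ]; exact JJ_symm34 _ _ _) h hh
  rw [key]
  apply add_nonneg
  · apply mul_nonneg (by norm_num)
    rw [hJ]
    exact region_nonneg (continuous_rr V a W) _ _ hh
  · apply mul_nonneg (by norm_num)
    have hJ' : ∀ q3 q4 u, JM V a W b (2*h - q3 - q4 - u) u q3 q4 =
        JJ (rr W b V) (fun i => a i.1.1) (fun i => a i.1.2) q3 q4 (2*h - q3 - q4 - u) u := by
      intro q3 q4 u
      rw [JM_swap, JM_eq hV]
    simp_rw [hJ']
    exact region_nonneg (continuous_rr W b V) _ _ hh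


omit [DecidableEq n] in
lemma com_sum (α β : n → ℂ) (P Q : n → Matrix n n ℂ) :
    com (∑ k, α k • P k) (∑ l, β l • Q l) = ∑ k, ∑ l, (α k * β l) • com (P k) (Q l) := by
  unfold com
  rw [Finset.sum_mul_sum, Finset.sum_mul_sum, Finset.sum_comm (f := fun i j => β i • Q i * α j • P j),
    ← Finset.sum_sub_distrib]
  refine Finset.sum_congr rfl fun k _ => ?_
  rw [← Finset.sum_sub_distrib]
  refine Finset.sum_congr rfl fun l _ => ?_
  rw [Matrix.smul_mul, Matrix.mul_smul, Matrix.smul_mul, Matrix.mul_smul, smul_smul, smul_smul,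
    smul_sub, mul_comm (β l) (α k)]

/-- `Re Tr [P_k, Q_l] [P_k', Q_l']` -/
noncomputable def th (V W : Matrix n n ℂ) (k l k' l' : n) : ℝ :=
  (trace (com (pr V k) (pr W l) * com (pr V k') (pr W l'))).re

lemma JM_sum (V : Matrix n n ℂ) (a : n → ℝ) (W : Matrix n n ℂ) (b : n → ℝ) (q1 q2 q3 q4 : ℝ) :
    JM V a W b q1 q2 q3 q4 = -∑ k, ∑ l, ∑ k', ∑ l',
      (Real.exp (-(q1 * a k)) * Real.exp (-(q3 * b l)) *
        (Real.exp (-(q2 * a k')) * Real.exp (-(q4 * b l')))) * th V W k l k' l' := by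
  unfold JM
  rw [sgm_eq_sum V a q1, sgm_eq_sum V a q2, sgm_eq_sum W b q3, sgm_eq_sum W b q4, com_sum, com_sum]
  congr 1
  simp_rw [Finset.sum_mul, Finset.mul_sum, Matrix.trace_sum, Complex.re_sum]
  refine Finset.sum_congr rfl fun k _ => Finset.sum_congr rfl fun l _ =>
    Finset.sum_congr rfl fun k' _ => Finset.sum_congr rfl fun l' _ => ?_
  rw [Matrix.smul_mul, Matrix.mul_smul, smul_smul, Matrix.trace_smul, smul_eq_mul]
  rw [← Complex.ofReal_mul, ← Complex.ofReal_mul, ← Complex.ofReal_mul, Complex.re_ofReal_mul]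
  rfl

lemma E2_eq (a b s : ℝ) :
    E2 a b s = ∫ u in (0:ℝ)..s, Real.exp (-(u * a)) * Real.exp (-((s - u) * b)) := by
  unfold E2
  congr 1; ext u
  rw [mul_comm a u, mul_comm b (s - u)]

lemma continuous_E2 (a b : ℝ) : Continuous (E2 a b) := by
  unfold E2
  have h : Continuous fun p : ℝ × ℝ => Real.exp (-(a * p.2)) * Real.exp (-(b * (p.1 - p.2))) := by
    fun_prop
  exact intervalIntegral.continuous_parametric_intervalIntegral_of_continuous h
    continuous_id

/-- **S1**: the density of `-Tr [(x+A)^{-1}, (x+B)^{-1}]^2` is nonnegative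
(spectral form). -/
theorem s1_sum (hfold : FoldStmt) {V W : Matrix n n ℂ} (hV : V ∈ unitaryGroup n ℂ)
    (hW : W ∈ unitaryGroup n ℂ) (a b : n → ℝ) {t : ℝ} (ht : 0 ≤ t) :
    0 ≤ -∑ k, ∑ l, ∑ k', ∑ l', E4 (a k) (b l) (a k') (b l') t * th V W k l k' l' := by
  have key := s1_fold hfold hV hW a b (h := t / 2) (by linarith)
  have e2 : 2 * (t / 2) = t := by ring
  rw [e2] at key
  have hsum : (∫ s in (0:ℝ)..t, ∫ q1 in (0:ℝ)..s, ∫ q2 in (0:ℝ)..(t - s),
      JM V a W b q1 q2 (s - q1) (t - s - q2)) =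
      -∑ k, ∑ l, ∑ k', ∑ l', E4 (a k) (b l) (a k') (b l') t * th V W k l k' l' := by
    have hJ : ∀ s q1 q2 : ℝ, JM V a W b q1 q2 (s - q1) (t - s - q2) =
        ∑ i : n × n × n × n, (-th V W i.1 i.2.1 i.2.2.1 i.2.2.2) *
          ((Real.exp (-(q1 * a i.1)) * Real.exp (-((s - q1) * b i.2.1))) *
          (Real.exp (-(q2 * a i.2.2.1)) * Real.exp (-((t - s - q2) * b i.2.2.2)))) := by
      intro s q1 q2
      rw [JM_sum]
      simp_rw [Fintype.sum_prod_type, ← Finset.sum_neg_distrib]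
      refine Finset.sum_congr rfl fun k _ => Finset.sum_congr rfl fun l _ =>
        Finset.sum_congr rfl fun k' _ => Finset.sum_congr rfl fun l' _ => ?_
      ring
    simp_rw [hJ]
    have i1 : ∀ s q1 : ℝ, (∫ q2 in (0:ℝ)..(t - s),
        ∑ i : n × n × n × n, (-th V W i.1 i.2.1 i.2.2.1 i.2.2.2) *
          ((Real.exp (-(q1 * a i.1)) * Real.exp (-((s - q1) * b i.2.1))) *
          (Real.exp (-(q2 * a i.2.2.1)) * Real.exp (-((t - s - q2) * b i.2.2.2))))) =
        ∑ i : n × n × n × n, ((-th V W i.1 i.2.1 i.2.2.1 i.2.2.2) *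
          E2 (a i.2.2.1) (b i.2.2.2) (t - s)) *
          (Real.exp (-(q1 * a i.1)) * Real.exp (-((s - q1) * b i.2.1))) := by
      intro s q1
      rw [ii_sum fun i => by fun_prop]
      refine Finset.sum_congr rfl fun i _ => ?_
      rw [intervalIntegral.integral_const_mul, intervalIntegral.integral_const_mul, E2_eq]
      ring
    simp_rw [i1]
    have i2 : ∀ s : ℝ, (∫ q1 in (0:ℝ)..s,
        ∑ i : n × n × n × n, ((-th V W i.1 i.2.1 i.2.2.1 i.2.2.2) *
          E2 (a i.2.2.1) (b i.2.2.2) (t - s)) *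
          (Real.exp (-(q1 * a i.1)) * Real.exp (-((s - q1) * b i.2.1)))) =
        ∑ i : n × n × n × n, (-th V W i.1 i.2.1 i.2.2.1 i.2.2.2) *
          (E2 (a i.1) (b i.2.1) s * E2 (a i.2.2.1) (b i.2.2.2) (t - s)) := by
      intro s
      rw [ii_sum fun i => by fun_prop]
      refine Finset.sum_congr rfl fun i _ => ?_
      rw [intervalIntegral.integral_const_mul, E2_eq (a i.1) (b i.2.1)]
      ring
    simp_rw [i2]
    have cE : ∀ i : n × n × n × n, Continuous fun s => -th V W i.1 i.2.1 i.2.2.1 i.2.2.2 *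
        (E2 (a i.1) (b i.2.1) s * E2 (a i.2.2.1) (b i.2.2.2) (t - s)) := by
      intro i
      have h1 := continuous_E2 (a i.1) (b i.2.1)
      have h2 : Continuous fun s => E2 (a i.2.2.1) (b i.2.2.2) (t - s) :=
        (continuous_E2 _ _).comp (by fun_prop)
      exact continuous_const.mul (h1.mul h2)
    rw [ii_sum cE]
    simp_rw [Fintype.sum_prod_type, ← Finset.sum_neg_distrib]
    refine Finset.sum_congr rfl fun k _ => Finset.sum_congr rfl fun l _ =>
        Finset.sum_congr rfl fun k' _ => Finset.sum_congr rfl fun l' _ => ?_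
    rw [intervalIntegral.integral_const_mul]
    unfold E4
    ring
  rw [← hsum]
  exact key

end Pool.Agent.QS
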