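import Mathlib
import Pool.Agent.Lib_helper12.QS.S1
import Pool.Agent.Lib_helper54.QS.Fold

namespace Pool.Agent.QS

open MeasureTheory intervalIntegral Matrix
open scoped ComplexConjugate

theorem foldStmt : FoldStmt := fun J hJ h12 h34 _ hh => simplex_fold J hJ h12 h34 hh

variable {n : Type*} [Fintype n] [DecidableEq n]

/-- **S1** (spectral form, unconditional): for unitary `V`, `W` and real eigenvalues `a`, `b`
the density in `t` of `-Tr [(x+A)⁻¹, (x+B)⁻¹]²`, `A = V diag(a) V*`, `B = W diag(b) W*`,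
is nonnegative. -/
theorem s1 {V W : Matrix n n ℂ} (hV : V ∈ unitaryGroup n ℂ) (hW : W ∈ unitaryGroup n ℂ)
    (a b : n → ℝ) {t : ℝ} (ht : 0 ≤ t) :
    0 ≤ -∑ k, ∑ l, ∑ k', ∑ l', E4 (a k) (b l) (a k') (b l') t * th V W k l k' l' :=
  s1_sum foldStmt hV hW a b ht

omit [DecidableEq n] in
/-- the traces `Tr [P_k, Q_l] [P_k', Q_l']` are real -/
lemma th_real (V W : Matrix n n ℂ) (k l k' l' : n) :
    trace (com (pr V k) (pr W l) * com (pr V k') (pr W l')) = (th V W k l k' l' : ℂ) := by
  have hp : ∀ (U : Matrix n n ℂ) (i : n), (pr U i)ᴴ = pr U i := by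
    intro U i
    ext x y
    simp [pr, vecMulVec_apply, conjTranspose_apply, mul_comm]
  have hc : ∀ i j : n, (com (pr V i) (pr W j))ᴴ = -com (pr V i) (pr W j) := by
    intro i j
    unfold com
    rw [conjTranspose_sub, conjTranspose_mul, conjTranspose_mul, hp, hp, neg_sub]
  have h1 : star (trace (com (pr V k) (pr W l) * com (pr V k') (pr W l'))) =
      trace (com (pr V k) (pr W l) * com (pr V k') (pr W l')) := by
    rw [← trace_conjTranspose, conjTranspose_mul, hc, hc, neg_mul_neg, trace_mul_comm]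
  have h2 := Complex.conj_eq_iff_real.1 h1
  obtain ⟨r, hr⟩ := h2
  unfold th
  rw [hr, Complex.ofReal_re]

end Pool.Agent.QS
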