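import Mathlib
import Pool.Agent.Lib_helper12.QS.S1T

namespace Pool.Agent.QS

open MeasureTheory intervalIntegral Matrix Set
open scoped ComplexConjugate Real ComplexOrder

/-- helper85's K1 -/
def K1Stmt : Prop :=
  ∀ (p : ℝ), 3 < p → ∀ (c R : ℝ), 0 < R → R < c → ∀ (a0 a1 a2 a3 : ℝ), 0 < a0 → 0 < a1 →
    0 < a2 → 0 < a3 → |1 / a0 - c| < R → |1 / a1 - c| < R → |1 / a2 - c| < R → |1 / a3 - c| < R →
    IntegrableOn (fun s : ℝ => s ^ (p - 4) * E4 a0 a1 a2 a3 s) (Ioi 0) ∧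
    (2 * π * Complex.I : ℂ)⁻¹ * (∮ z in C((c : ℂ), R), z ^ ((p - 1 : ℝ) : ℂ) /
      (((a0 : ℂ) * z - 1) * ((a1 : ℂ) * z - 1) * ((a2 : ℂ) * z - 1) * ((a3 : ℂ) * z - 1))) =
      ((1 / Real.Gamma (p - 3) * ∫ s in Ioi (0:ℝ), s ^ (p - 4) * E4 a0 a1 a2 a3 s : ℝ) : ℂ)

variable {n : Type*} [Fintype n] [DecidableEq n]

/-- `M (z - M)⁻¹` in spectral form -/
lemma resolv_eq {M V : Matrix n n ℂ} (hV : V ∈ unitaryGroup n ℂ) (lam : n → ℝ)
    (hM : M = V * diagonal (fun k => (lam k : ℂ)) * Vᴴ) (hl : ∀ k, 0 < lam k) {z : ℂ}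
    (hz : ∀ k, z ≠ (lam k : ℂ)) :
    M * (z • (1 : Matrix n n ℂ) - M)⁻¹ =
      ∑ k, (((1 / lam k : ℝ) : ℂ) * z - 1)⁻¹ • pr V k := by
  have hVV : Vᴴ * V = 1 := (mem_unitaryGroup_iff').1 hV
  have hVV' : V * Vᴴ = 1 := (mem_unitaryGroup_iff).1 hV
  have h1 : z • (1 : Matrix n n ℂ) - M = V * diagonal (fun k => z - (lam k : ℂ)) * Vᴴ := by
    have e : diagonal (fun k => z - (lam k : ℂ)) =
        z • (1 : Matrix n n ℂ) - diagonal (fun k => (lam k : ℂ)) := by
      ext i j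
      by_cases h : i = j
      · subst h; simp
      · simp [h]
    rw [e, Matrix.mul_sub, Matrix.sub_mul, hM, Matrix.mul_smul, Matrix.mul_one, Matrix.smul_mul,
      hVV']
  have h2 : (z • (1 : Matrix n n ℂ) - M)⁻¹ =
      V * diagonal (fun k => (z - (lam k : ℂ))⁻¹) * Vᴴ := by
    apply Matrix.inv_eq_right_inv
    rw [h1]
    calc V * diagonal (fun k => z - (lam k : ℂ)) * Vᴴ * (V * diagonal (fun k => (z - (lam k : ℂ))⁻¹) * Vᴴ)
        = V * (diagonal (fun k => z - (lam k : ℂ)) * (Vᴴ * V) *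
            diagonal (fun k => (z - (lam k : ℂ))⁻¹)) * Vᴴ := by simp only [Matrix.mul_assoc]
      _ = V * 1 * Vᴴ := by
          rw [hVV, Matrix.mul_one, Matrix.diagonal_mul_diagonal]
          congr 2
          rw [← Matrix.diagonal_one]
          congr 1; ext k
          exact mul_inv_cancel₀ (sub_ne_zero.2 (hz k))
      _ = 1 := by rw [Matrix.mul_one, hVV']
  have h3 : M * (z • (1 : Matrix n n ℂ) - M)⁻¹ =
      V * diagonal (fun k => (((1 / lam k : ℝ) : ℂ) * z - 1)⁻¹) * Vᴴ := by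
    rw [h2, hM]
    calc V * diagonal (fun k => (lam k : ℂ)) * Vᴴ * (V * diagonal (fun k => (z - (lam k : ℂ))⁻¹) * Vᴴ)
        = V * (diagonal (fun k => (lam k : ℂ)) * (Vᴴ * V) *
            diagonal (fun k => (z - (lam k : ℂ))⁻¹)) * Vᴴ := by simp only [Matrix.mul_assoc]
      _ = _ := by
          rw [hVV, Matrix.mul_one, Matrix.diagonal_mul_diagonal]
          congr 3; ext k
          have hk : (lam k : ℂ) ≠ 0 := by exact_mod_cast (hl k).ne'
          have hk2 := sub_ne_zero.2 (hz k)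
          rw [← div_eq_mul_inv, div_eq_iff hk2, eq_comm, inv_mul_eq_iff_eq_mul₀]
          · push_cast; field_simp
          · push_cast
            intro h0
            apply hk2
            have : z - (lam k : ℂ) = (lam k : ℂ) * (1 / (lam k : ℂ) * z - 1) := by
              field_simp
            rw [this, h0, mul_zero]
  rw [h3]
  ext i j
  rw [Matrix.mul_apply]
  simp only [Matrix.mul_diagonal, conjTranspose_apply, Matrix.sum_apply,
    Matrix.smul_apply, pr, vecMulVec_apply, smul_eq_mul, RCLike.star_def]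
  refine Finset.sum_congr rfl fun k _ => ?_
  ring

omit [DecidableEq n] in
lemma trace_com_sq (V W : Matrix n n ℂ) (x y : n → ℂ) :
    trace (com (∑ k, x k • pr V k) (∑ l, y l • pr W l) *
      com (∑ k, x k • pr V k) (∑ l, y l • pr W l)) =
    ∑ k, ∑ l, ∑ k', ∑ l', (x k * y l * (x k' * y l')) * (th V W k l k' l' : ℂ) := by
  rw [com_sum]
  simp_rw [Finset.sum_mul, Finset.mul_sum, Matrix.trace_sum]
  refine Finset.sum_congr rfl fun k _ => Finset.sum_congr rfl fun l _ =>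
    Finset.sum_congr rfl fun k' _ => Finset.sum_congr rfl fun l' _ => ?_
  rw [Matrix.smul_mul, Matrix.mul_smul, smul_smul, Matrix.trace_smul, smul_eq_mul, th_real]

theorem s1c (hK : K1Stmt) (p : ℝ) (hp : 3 < p) (M N : Matrix n n ℂ)
    (hM : M.PosDef) (hN : N.PosDef) (c ρ : ℝ) (hρ : 0 < ρ) (hρc : ρ < c)
    (hMe : ∀ i, |hM.1.eigenvalues i - c| < ρ) (hNe : ∀ i, |hN.1.eigenvalues i - c| < ρ) :
    ∃ e : ℝ, 0 ≤ e ∧ (2 * π * Complex.I : ℂ)⁻¹ * (∮ z in C((c : ℂ), ρ), z ^ ((p - 1 : ℝ) : ℂ) *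
      (-(((M * (z • (1 : Matrix n n ℂ) - M)⁻¹) * (N * (z • (1 : Matrix n n ℂ) - N)⁻¹) -
          (N * (z • (1 : Matrix n n ℂ) - N)⁻¹) * (M * (z • (1 : Matrix n n ℂ) - M)⁻¹)) *
        ((M * (z • (1 : Matrix n n ℂ) - M)⁻¹) * (N * (z • (1 : Matrix n n ℂ) - N)⁻¹) -
          (N * (z • (1 : Matrix n n ℂ) - N)⁻¹) * (M * (z • (1 : Matrix n n ℂ) - M)⁻¹))).trace))
      = (e : ℂ) := by
  set V : Matrix n n ℂ := (hM.1.eigenvectorUnitary : Matrix n n ℂ) with hVdef
  set W : Matrix n n ℂ := (hN.1.eigenvectorUnitary : Matrix n n ℂ) with hWdef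
  have hV : V ∈ unitaryGroup n ℂ := hM.1.eigenvectorUnitary.2
  have hW : W ∈ unitaryGroup n ℂ := hN.1.eigenvectorUnitary.2
  set lam := hM.1.eigenvalues with hlam
  set mu := hN.1.eigenvalues with hmu
  have hMs : M = V * diagonal (fun k => (lam k : ℂ)) * Vᴴ := by
    have := hM.1.spectral_theorem
    rw [Unitary.conjStarAlgAut_apply] at this
    exact this
  have hNs : N = W * diagonal (fun k => (mu k : ℂ)) * Wᴴ := by
    have := hN.1.spectral_theorem
    rw [Unitary.conjStarAlgAut_apply] at this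
    exact this
  have hlp : ∀ k, 0 < lam k := hM.eigenvalues_pos
  have hmp : ∀ k, 0 < mu k := hN.eigenvalues_pos
  set a : n → ℝ := fun k => 1 / lam k with ha
  set b : n → ℝ := fun k => 1 / mu k with hb
  have hap : ∀ k, 0 < a k := fun k => one_div_pos.2 (hlp k)
  have hbp : ∀ k, 0 < b k := fun k => one_div_pos.2 (hmp k)
  have hac : ∀ k, |1 / a k - c| < ρ := fun k => by rw [ha]; simpa using hMe k
  have hbc : ∀ k, |1 / b k - c| < ρ := fun k => by rw [hb]; simpa using hNe k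
  -- points of the circle are not eigenvalues
  have hne : ∀ z ∈ Metric.sphere (c : ℂ) ρ, ∀ x : ℝ, |x - c| < ρ → z ≠ (x : ℂ) := by
    intro z hz x hx h0
    rw [h0, mem_sphere_iff_norm, ← Complex.ofReal_sub, Complex.norm_real, Real.norm_eq_abs] at hz
    linarith
  have halg : ∀ A B C D Z T : ℂ, Z * -(A⁻¹ * B⁻¹ * (C⁻¹ * D⁻¹) * T) =
      -T * (Z / (A * B * C * D)) := by
    intro A B C D Z T
    rw [div_eq_mul_inv, mul_inv, mul_inv, mul_inv]
    ring
  -- the integrand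
  have hint : ∀ z ∈ Metric.sphere (c : ℂ) ρ, z ^ ((p - 1 : ℝ) : ℂ) *
      (-(((M * (z • (1 : Matrix n n ℂ) - M)⁻¹) * (N * (z • (1 : Matrix n n ℂ) - N)⁻¹) -
          (N * (z • (1 : Matrix n n ℂ) - N)⁻¹) * (M * (z • (1 : Matrix n n ℂ) - M)⁻¹)) *
        ((M * (z • (1 : Matrix n n ℂ) - M)⁻¹) * (N * (z • (1 : Matrix n n ℂ) - N)⁻¹) -
          (N * (z • (1 : Matrix n n ℂ) - N)⁻¹) * (M * (z • (1 : Matrix n n ℂ) - M)⁻¹))).trace) =
      ∑ i : n × n × n × n, ((-th V W i.1 i.2.1 i.2.2.1 i.2.2.2 : ℝ) : ℂ) *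
        (z ^ ((p - 1 : ℝ) : ℂ) / (((a i.1 : ℂ) * z - 1) * ((b i.2.1 : ℂ) * z - 1) *
          ((a i.2.2.1 : ℂ) * z - 1) * ((b i.2.2.2 : ℂ) * z - 1))) := by
    intro z hz
    have h1 := resolv_eq hV lam hMs hlp (fun k => hne z hz _ (hMe k))
    have h2 := resolv_eq hW mu hNs hmp (fun k => hne z hz _ (hNe k))
    have h3 := trace_com_sq V W (fun k => (((1 / lam k : ℝ) : ℂ) * z - 1)⁻¹)
      (fun k => (((1 / mu k : ℝ) : ℂ) * z - 1)⁻¹)
    rw [← h1, ← h2] at h3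
    unfold com at h3
    rw [h3]
    simp_rw [Fintype.sum_prod_type]
    rw [← Finset.sum_neg_distrib, Finset.mul_sum]
    refine Finset.sum_congr rfl fun k _ => ?_
    rw [← Finset.sum_neg_distrib, Finset.mul_sum]
    refine Finset.sum_congr rfl fun l _ => ?_
    rw [← Finset.sum_neg_distrib, Finset.mul_sum]
    refine Finset.sum_congr rfl fun k' _ => ?_
    rw [← Finset.sum_neg_distrib, Finset.mul_sum]
    refine Finset.sum_congr rfl fun l' _ => ?_
    rw [Complex.ofReal_neg]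
    exact halg _ _ _ _ _ _
  rw [circleIntegral.integral_congr hρ.le hint]
  -- integrability of each term
  have hci : ∀ i : n × n × n × n, CircleIntegrable (fun z : ℂ =>
      ((-th V W i.1 i.2.1 i.2.2.1 i.2.2.2 : ℝ) : ℂ) *
        (z ^ ((p - 1 : ℝ) : ℂ) / (((a i.1 : ℂ) * z - 1) * ((b i.2.1 : ℂ) * z - 1) *
          ((a i.2.2.1 : ℂ) * z - 1) * ((b i.2.2.2 : ℂ) * z - 1)))) (c : ℂ) ρ := by
    intro i
    apply ContinuousOn.circleIntegrable hρ.le
    have hnz : ∀ (x : ℝ), 0 < x → |1 / x - c| < ρ → ∀ z ∈ Metric.sphere (c : ℂ) ρ,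
        (x : ℂ) * z - 1 ≠ 0 := by
      intro x hx hxc z hz h0
      apply hne z hz _ hxc
      have hx' : (x : ℂ) ≠ 0 := by exact_mod_cast hx.ne'
      push_cast
      field_simp
      linear_combination h0
    apply ContinuousOn.mul continuousOn_const
    apply ContinuousOn.div
    · intro z hz
      apply ContinuousAt.continuousWithinAt
      apply continuousAt_cpow_const
      rw [Complex.mem_slitPlane_iff]
      left
      have h1 : |z.re - c| ≤ ρ := by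
        have h2 : ‖z - (c : ℂ)‖ = ρ := mem_sphere_iff_norm.1 hz
        have h3 := Complex.abs_re_le_norm (z - (c : ℂ))
        rw [h2] at h3
        simpa using h3
      have := (abs_le.1 h1).1
      linarith
    · fun_prop
    · intro z hz
      have h0 := hnz _ (hap i.1) (hac i.1) z hz
      have h1 := hnz _ (hbp i.2.1) (hbc i.2.1) z hz
      have h2 := hnz _ (hap i.2.2.1) (hac i.2.2.1) z hz
      have h3 := hnz _ (hbp i.2.2.2) (hbc i.2.2.2) z hz
      exact mul_ne_zero (mul_ne_zero (mul_ne_zero h0 h1) h2) h3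
  have hsum := circleIntegral.integral_fun_sum (s := Finset.univ) (fun i _ => hci i)
  rw [hsum, Finset.mul_sum]
  have hterm : ∀ i : n × n × n × n, (2 * π * Complex.I : ℂ)⁻¹ * (∮ z in C((c : ℂ), ρ),
      ((-th V W i.1 i.2.1 i.2.2.1 i.2.2.2 : ℝ) : ℂ) *
        (z ^ ((p - 1 : ℝ) : ℂ) / (((a i.1 : ℂ) * z - 1) * ((b i.2.1 : ℂ) * z - 1) *
          ((a i.2.2.1 : ℂ) * z - 1) * ((b i.2.2.2 : ℂ) * z - 1)))) =
      ((-th V W i.1 i.2.1 i.2.2.1 i.2.2.2 * (1 / Real.Gamma (p - 3) *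
        ∫ s in Ioi (0:ℝ), s ^ (p - 4) * E4 (a i.1) (b i.2.1) (a i.2.2.1) (b i.2.2.2) s) : ℝ) : ℂ) := by
    intro i
    have := (hK p hp c ρ hρ hρc (a i.1) (b i.2.1) (a i.2.2.1) (b i.2.2.2) (hap _) (hbp _) (hap _)
      (hbp _) (hac _) (hbc _) (hac _) (hbc _)).2
    rw [circleIntegral.integral_const_mul, ← mul_assoc, mul_comm (2 * π * Complex.I : ℂ)⁻¹,
      mul_assoc, this]
    push_cast
    ring
  rw [Finset.sum_congr rfl fun i _ => hterm i]
  refine ⟨∑ i : n × n × n × n, (-th V W i.1 i.2.1 i.2.2.1 i.2.2.2 * (1 / Real.Gamma (p - 3) *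
        ∫ s in Ioi (0:ℝ), s ^ (p - 4) * E4 (a i.1) (b i.2.1) (a i.2.2.1) (b i.2.2.2) s)), ?_,
    by push_cast; rfl⟩
  have hI : ∀ i : n × n × n × n, IntegrableOn (fun s : ℝ => s ^ (p - 4) *
      E4 (a i.1) (b i.2.1) (a i.2.2.1) (b i.2.2.2) s) (Ioi 0) := fun i =>
    (hK p hp c ρ hρ hρc (a i.1) (b i.2.1) (a i.2.2.1) (b i.2.2.2) (hap _) (hbp _) (hap _)
      (hbp _) (hac _) (hbc _) (hac _) (hbc _)).1
  have e1 : (∑ i : n × n × n × n, (-th V W i.1 i.2.1 i.2.2.1 i.2.2.2 * (1 / Real.Gamma (p - 3) *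
        ∫ s in Ioi (0:ℝ), s ^ (p - 4) * E4 (a i.1) (b i.2.1) (a i.2.2.1) (b i.2.2.2) s))) =
      1 / Real.Gamma (p - 3) * ∫ s in Ioi (0:ℝ), ∑ i : n × n × n × n,
        -th V W i.1 i.2.1 i.2.2.1 i.2.2.2 *
          (s ^ (p - 4) * E4 (a i.1) (b i.2.1) (a i.2.2.1) (b i.2.2.2) s) := by
    rw [integral_finsetSum _ fun i _ => (hI i).const_mul _, Finset.mul_sum]
    refine Finset.sum_congr rfl fun i _ => ?_
    rw [MeasureTheory.integral_const_mul]
    ring
  rw [e1]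
  apply mul_nonneg
  · exact one_div_nonneg.2 (Real.Gamma_nonneg_of_nonneg (by linarith))
  · apply setIntegral_nonneg measurableSet_Ioi
    intro s hs
    have hs' : (0:ℝ) ≤ s := le_of_lt hs
    have key := s1 hV hW a b hs'
    have e2 : (∑ i : n × n × n × n, -th V W i.1 i.2.1 i.2.2.1 i.2.2.2 *
          (s ^ (p - 4) * E4 (a i.1) (b i.2.1) (a i.2.2.1) (b i.2.2.2) s)) =
        s ^ (p - 4) * (-∑ k, ∑ l, ∑ k', ∑ l', E4 (a k) (b l) (a k') (b l') s * th V W k l k' l') := by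
      simp_rw [Fintype.sum_prod_type]
      rw [← Finset.sum_neg_distrib, Finset.mul_sum]
      refine Finset.sum_congr rfl fun k _ => ?_
      rw [← Finset.sum_neg_distrib, Finset.mul_sum]
      refine Finset.sum_congr rfl fun l _ => ?_
      rw [← Finset.sum_neg_distrib, Finset.mul_sum]
      refine Finset.sum_congr rfl fun k' _ => ?_
      rw [← Finset.sum_neg_distrib, Finset.mul_sum]
      refine Finset.sum_congr rfl fun l' _ => ?_
      ring
    rw [e2]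
    exact mul_nonneg (Real.rpow_nonneg hs' _) key

end Pool.Agent.QS
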