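import Mathlib
import Pool.Agent.Lib_helper12.QS.S1C
import Pool.Agent.Lib_helper85.QS.K1

namespace Pool.Agent.QS

open MeasureTheory intervalIntegral Matrix Set
open scoped ComplexConjugate Real ComplexOrder

lemma E4_eq_K1 (a b c d t : ℝ) : E4 a b c d t = Pool.Agent.QSK1.E4 a b c d t := rfl

theorem k1Stmt : K1Stmt := by
  intro p hp c R hR hc a0 a1 a2 a3 h0 h1 h2 h3 g0 g1 g2 g3
  have i0 : Pool.Agent.QSK1.Ins c R a0 := ⟨h0, by simpa using g0⟩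
  have i1 : Pool.Agent.QSK1.Ins c R a1 := ⟨h1, by simpa using g1⟩
  have i2 : Pool.Agent.QSK1.Ins c R a2 := ⟨h2, by simpa using g2⟩
  have i3 : Pool.Agent.QSK1.Ins c R a3 := ⟨h3, by simpa using g3⟩
  refine ⟨Pool.Agent.QSK1.E4_integrable hR hc i0 i1 i2 i3 hp, ?_⟩
  have key := Pool.Agent.QSK1.K1 hR hc i0 i1 i2 i3 hp
  rw [one_div]
  refine Eq.trans ?_ key
  congr 2
  ext z
  rw [div_eq_mul_inv, mul_inv, mul_inv, mul_inv]

/-- **S1C**: positivity of the contour integral of `-Tr [X, Y]²`. -/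
theorem s1c_stmt (p : ℝ) (hp : 3 < p) (m : Type) [Fintype m] [DecidableEq m] (M N : Matrix m m ℂ)
    (hM : M.PosDef) (hN : N.PosDef) (c ρ : ℝ) (hρ : 0 < ρ) (hρc : ρ < c)
    (hMe : ∀ i, |hM.1.eigenvalues i - c| < ρ) (hNe : ∀ i, |hN.1.eigenvalues i - c| < ρ) :
    ∃ e : ℝ, 0 ≤ e ∧ (2 * π * Complex.I : ℂ)⁻¹ * (∮ z in C((c : ℂ), ρ), z ^ ((p - 1 : ℝ) : ℂ) *
      (-(((M * (z • (1 : Matrix m m ℂ) - M)⁻¹) * (N * (z • (1 : Matrix m m ℂ) - N)⁻¹) -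
          (N * (z • (1 : Matrix m m ℂ) - N)⁻¹) * (M * (z • (1 : Matrix m m ℂ) - M)⁻¹)) *
        ((M * (z • (1 : Matrix m m ℂ) - M)⁻¹) * (N * (z • (1 : Matrix m m ℂ) - N)⁻¹) -
          (N * (z • (1 : Matrix m m ℂ) - N)⁻¹) * (M * (z • (1 : Matrix m m ℂ) - M)⁻¹))).trace))
      = (e : ℂ) :=
  s1c k1Stmt p hp M N hM hN c ρ hρ hρc hMe hNe

end Pool.Agent.QS
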